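import Pool.Agent.Lib.MP_bc213e_ag.VK.Main
import Pool.Agent.Lib.MP_bc213e_ag.KL.S.CD

/-! The generic fibre is klt. -/

namespace Pool.Agent.Lib.MP_bc213e_ag

open Pool.Agent.Lib.MP_4287a9_ag (IsDiv ldisc ordS jacs ordS_le_iff ordS_nonneg_iff ordS_eq_of_unit)

/-- The inequality of Izumi for polynomials in the Noether coordinates. -/
theorem KL.Af.izumi {k M N : Type} [Field k] [CharZero k] [Field M] [Algebra k M] [Fintype N]
    {φ r : ℕ} (A : KL.Af k M N φ r) (hφ : 1 ≤ φ) (hr : 0 < r) (hu : A.u ∈ A.R)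
    (h : ∀ T O, IsDiv A.R T O → 0 < ldisc A.D A.u r O) :
    ∃ C : ℕ, ∀ T O, IsDiv A.R T O → ∀ (p : MvPolynomial (Fin φ) k) (e : ℕ), p ≠ 0 →
      p.totalDegree ≤ e → (ordS O {MvPolynomial.aeval A.x p} : ℝ) ≤ e * C * ldisc A.D A.u r O := by
  have := A.frac
  have := A.norm
  have : Algebra.FiniteType k A.R := .adjoin_of_finite (Set.finite_range _)
  obtain ⟨c, c1, c2, c3, hc⟩ := A.exists_cd hφ hr
  obtain ⟨C, hC⟩ := VK.exists_lct hc hr (fun T O hO => by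
    rw [c1, c2, c3, mul_one, NNReal.coe_zero, zero_mul]
    exact h T O hO) (h := ⟨_, hu⟩) fun e => A.u_ne (congrArg Subtype.val e)
  rw [c1, c2, c3, mul_one] at hC
  refine ⟨C + 1, fun T O hO p e p0 p1 => ?_⟩
  have q1 := Int.cast_le (R := ℝ).2 (VK.ord_aeval_le A.hint A.dual hO p0 p1)
  have q2 : (ordS O {A.u} : ℝ) ≤ _ := hC T O hO
  have q4 : (0 : ℝ) ≤ ordS O {A.u} :=
    Int.cast_nonneg ((ordS_nonneg_iff hO.1 A.u_ne).2 (hO.base (⟨_, hu⟩ : A.R)))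
  have q5 : (ordS O {A.u} : ℝ) / r ≤ ordS O {A.u} := div_le_self q4 (Nat.one_le_cast.2 hr)
  have q6 : ldisc A.D A.u r O = 1 - ordS O (jacs A.D O) - ordS O {A.u} / r := rfl
  push_cast at q1 ⊢
  rw [mul_assoc]
  exact q1.trans (mul_le_mul_of_nonneg_left (by linarith) e.cast_nonneg)

namespace DD.Geo

open Pool.Agent.Lib.MP_bc213e_ag.KL Pool.Agent.Lib.MP_bc213e_ag.DC

variable {K M ι : Type} [Field K] [Algebra ℂ K] [Field M] [Algebra ℂ M] [Algebra K M] {n : ℕ}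
  {S : Su K M ι n} {Ω E : Type} [Field Ω] [Algebra ℂ Ω] [Field E] [Algebra ℂ E] [Algebra Ω E]
  [IsScalarTower ℂ Ω E] {b φ : ℕ} (G : Geo S Ω E b φ) [IsScalarTower ℂ K M] [Fintype ι]
  [IsAlgClosed Ω]

theorem vout {d : ℕ} (hk : S.VK d) (hb : d + 2 ≤ b) (hφ : 1 ≤ φ) (j : ι) :
    ∃ A : Af G.k M (Option ι) φ S.m, A.t = S.gen j ∧
      (∀ z : Fin φ → M, S.mu (Sum.elim G.y z ∘ G.ε) = A.u * Jac A.D z ^ S.m) ∧ A.Klt 1 1 ∧
      ∃ c₁, ∀ (a q : ℕ) (w : M), 0 < a → c₁ * a ≤ q → w ≠ 0 → w ∈ G.Rk a →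
        w / S.X j ^ a ∈ A.R ∧ A.Klt (w / S.X j ^ a) q := by
  have := G.k_charZero
  obtain ⟨x, δ, h1, h2, h3, h4⟩ := G.exists_nn j
  obtain ⟨D, hD⟩ := G.exists_frame h2
  have h5 : ∀ c i, D (Sum.inr c) (G.y i) = 0 := fun c i =>
    (hD.dual _ (Sum.inl i)).trans (if_neg Sum.inr_ne_inl)
  let A : Af G.k M (Option ι) φ S.m :=
    { t := S.gen j
      x := x
      D := fun c => G.kder _ (h5 c)
      u := G.mz x
      frac := G.Dk_frac j
      norm := G.Dk_norm j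
      x_mem := h1
      int := h3
      dual := fun i l => (hD.dual (Sum.inr i) (Sum.inr l)).trans (by simp)
      u_ne := G.mz_ne hD
      eff := fun s => (congrArg (· ∈ G.Dk j) (G.mz_eq hD (S.gen j ∘ s))).mp
        (G.mz_mem_Dk fun c => G.B_le_Dk (S.gen_mem j _)) }
  have h6 : ∀ T O, IsDiv A.R T O → 0 < ldisc A.D A.u S.m O := fun T O hO =>
    G.ldisc_pos hk hb (G.mz_eq hD) hO
  obtain ⟨C, hC⟩ := A.izumi hφ (Nat.pos_of_ne_zero S.mpos) (G.mz_mem_Dk h1) h6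
  refine ⟨A, rfl, G.mz_eq hD, fun T O hO => ?_, δ * C + 1, fun a q w ha hq h0 hw =>
    ⟨G.div_mem_Dk hw j, fun T O hO => ?_⟩⟩
  · have := hO.1
    rw [ordS_eq_of_unit (e := 0) hO.1 (IsDiscreteValuationRing.exists_irreducible O).choose_spec
      one_ne_zero (by simp) (by simp)]
    simpa using h6 T O hO
  obtain ⟨p, p0, p1, p2⟩ := h4 a w hw h0
  have q1 := Int.cast_le (R := ℝ).2 ((ordS_le_iff hO.1 (div_ne_zero h0 (pow_ne_zero a (S.X_ne j)))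
    fun e => p0 (algebraicIndependent_iff.1 h2.1 p e)).2
    (p2 O fun f hf => hO.base (⟨f, hf⟩ : A.R)))
  have q7 : (((δ * C + 1) * a : ℕ) : ℝ) ≤ q := Nat.cast_le.2 hq
  have q8 : (0 : ℝ) < a := Nat.cast_pos.2 ha
  refine (q1.trans (hC T O hO p _ p0 p1)).trans_lt (mul_lt_mul_of_pos_right ?_ (h6 T O hO))
  push_cast at q7 ⊢
  linarith

end DD.Geo

end Pool.Agent.Lib.MP_bc213e_ag
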